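import Pool.Agent.IZ726.Basic

/-!
# Neutrality of the atoms of the lattice of implication zroupoid varieties

We show that `ZM` is a neutral element of the lattice of all varieties of implication zroupoids,
while `SL` and `BA` are not neutral.
-/

namespace Pool.Agent.Results.MP_be65b5_al.Neutrality

open Pool.Agent.IZ726

/-- `InGen a y z p`: the element `p` belongs to the sublattice generated by `a, y, z`. -/
inductive InGen {L : Type*} [Lattice L] (a y z : L) : L → Prop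
  | a : InGen a y z a
  | y : InGen a y z y
  | z : InGen a y z z
  | sup {p q : L} : InGen a y z p → InGen a y z q → InGen a y z (p ⊔ q)
  | inf {p q : L} : InGen a y z p → InGen a y z q → InGen a y z (p ⊓ q)

/-- The element `a` is neutral: for all `y, z` the sublattice generated by `a, y, z` is
distributive. -/
def IsNeutral {L : Type*} [Lattice L] (a : L) : Prop :=
  ∀ y z p q r : L, InGen a y z p → InGen a y z q → InGen a y z r →
    p ⊓ (q ⊔ r) = (p ⊓ q) ⊔ (p ⊓ r)

/-- The variety `SL`: implication zroupoids with `(x → y) → z ≈ x → (y → z)`, `x → x ≈ x` and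
`x → y ≈ y → x`. -/
def SL : IZVar := varietyOf
  {(.imp (.imp (.var 0) (.var 1)) (.var 2), .imp (.var 0) (.imp (.var 1) (.var 2))),
   (.imp (.var 0) (.var 0), .var 0),
   (.imp (.var 0) (.var 1), .imp (.var 1) (.var 0))}

/-- The class of all Boolean algebras, viewed as algebras with `x → y = ¬x ∨ y` and
the constant `0`. -/
def boolClass : Set ZAlg :=
  {A | ∃ _b : BooleanAlgebra A.carrier, (∀ x y : A.carrier, A.imp x y = xᶜ ⊔ y) ∧ A.zero = ⊥}

/-! ### General lattice theory -/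

section lattice

variable {L : Type*} [Lattice L]

theorem IsNeutral.dist {a : L} (h : IsNeutral a) (y z : L) :
    a ⊔ (y ⊓ z) = (a ⊔ y) ⊓ (a ⊔ z) := by
  have ga : InGen a y z a := .a
  have gy : InGen a y z y := .y
  have gz : InGen a y z z := .z
  have e1 := h y z (a ⊔ y) a z (ga.sup gy) ga gz
  have e2 := h y z z a y gz ga gy
  have e3 : (a ⊔ y) ⊓ a = a := inf_eq_right.2 le_sup_left
  have e4 : a ⊔ (z ⊓ a) = a := sup_eq_left.2 inf_le_right
  rw [e1, e3, inf_comm (a ⊔ y) z, e2, ← sup_assoc, e4, inf_comm z y]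

/-- The five-element distributive lattice with an additional bottom element. -/
theorem five_bot {a y z : L} (hy : a ≤ y) (hz : a ≤ z) :
    let D : Set L := {a, y ⊓ z, y, z, y ⊔ z}
    (∀ p ∈ D, ∀ q ∈ D, p ⊔ q ∈ D) ∧ (∀ p ∈ D, ∀ q ∈ D, p ⊓ q ∈ D) ∧
      ∀ p ∈ D, ∀ q ∈ D, ∀ r ∈ D, p ⊓ (q ⊔ r) = (p ⊓ q) ⊔ (p ⊓ r) := by
  intro D
  obtain ⟨m, hm⟩ : ∃ m, m = y ⊓ z := ⟨_, rfl⟩
  obtain ⟨j, hj⟩ : ∃ j, j = y ⊔ z := ⟨_, rfl⟩
  have ham : a ≤ m := hm ▸ le_inf hy hz
  have hmy : m ≤ y := hm ▸ inf_le_left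
  have hmz : m ≤ z := hm ▸ inf_le_right
  have hyj : y ≤ j := hj ▸ le_sup_left
  have hzj : z ≤ j := hj ▸ le_sup_right
  have haj := hy.trans hyj
  have hmj := hmy.trans hyj
  have hm' : z ⊓ y = m := by rw [inf_comm]; exact hm.symm
  have hj' : z ⊔ y = j := by rw [sup_comm]; exact hj.symm
  have hD : D = {a, m, y, z, j} := by rw [hm, hj]
  rw [hD]
  have hm2 := hm.symm
  have hj2 := hj.symm
  clear_value D
  clear hD hm hj
  have t1 := sup_eq_right.2 ham
  have t2 := sup_eq_right.2 hy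
  have t3 := sup_eq_right.2 hz
  have t4 := sup_eq_right.2 haj
  have t5 := sup_eq_right.2 hmy
  have t6 := sup_eq_right.2 hmz
  have t7 := sup_eq_right.2 hmj
  have t8 := sup_eq_right.2 hyj
  have t9 := sup_eq_right.2 hzj
  have u1 := sup_eq_left.2 ham
  have u2 := sup_eq_left.2 hy
  have u3 := sup_eq_left.2 hz
  have u4 := sup_eq_left.2 haj
  have u5 := sup_eq_left.2 hmy
  have u6 := sup_eq_left.2 hmz
  have u7 := sup_eq_left.2 hmj
  have u8 := sup_eq_left.2 hyj
  have u9 := sup_eq_left.2 hzj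
  have v1 := inf_eq_left.2 ham
  have v2 := inf_eq_left.2 hy
  have v3 := inf_eq_left.2 hz
  have v4 := inf_eq_left.2 haj
  have v5 := inf_eq_left.2 hmy
  have v6 := inf_eq_left.2 hmz
  have v7 := inf_eq_left.2 hmj
  have v8 := inf_eq_left.2 hyj
  have v9 := inf_eq_left.2 hzj
  have w1 := inf_eq_right.2 ham
  have w2 := inf_eq_right.2 hy
  have w3 := inf_eq_right.2 hz
  have w4 := inf_eq_right.2 haj
  have w5 := inf_eq_right.2 hmy
  have w6 := inf_eq_right.2 hmz
  have w7 := inf_eq_right.2 hmj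
  have w8 := inf_eq_right.2 hyj
  have w9 := inf_eq_right.2 hzj
  refine ⟨?_, ?_, ?_⟩
  · rintro p (rfl | rfl | rfl | rfl | rfl) q (rfl | rfl | rfl | rfl | rfl) <;>
      simp only [hj2, hj', t1, t2, t3, t4, t5, t6, t7, t8, t9, u1, u2, u3, u4, u5, u6,
        u7, u8, u9, sup_idem] <;> simp
  · rintro p (rfl | rfl | rfl | rfl | rfl) q (rfl | rfl | rfl | rfl | rfl) <;>
      simp only [hm2, hm', v1, v2, v3, v4, v5, v6, v7, v8, v9, w1, w2, w3, w4, w5, w6,
        w7, w8, w9, inf_idem] <;> simp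
  · rintro p (rfl | rfl | rfl | rfl | rfl) q (rfl | rfl | rfl | rfl | rfl) r
      (rfl | rfl | rfl | rfl | rfl) <;>
      simp only [hm2, hj2, hm', hj', t1, t2, t3, t4, t5, t6, t7, t8, t9, u1, u2, u3, u4, u5, u6,
        u7, u8, u9, sup_idem, v1, v2, v3, v4, v5, v6, v7, v8, v9, w1, w2, w3, w4, w5, w6,
        w7, w8, w9, inf_idem]

/-- The five-element distributive lattice with an additional top element. -/
theorem five_top {a y z : L} (hy : y ≤ a) (hz : z ≤ a) :
    let D : Set L := {a, y ⊓ z, y, z, y ⊔ z}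
    (∀ p ∈ D, ∀ q ∈ D, p ⊔ q ∈ D) ∧ (∀ p ∈ D, ∀ q ∈ D, p ⊓ q ∈ D) ∧
      ∀ p ∈ D, ∀ q ∈ D, ∀ r ∈ D, p ⊓ (q ⊔ r) = (p ⊓ q) ⊔ (p ⊓ r) := by
  intro D
  obtain ⟨m, hm⟩ : ∃ m, m = y ⊓ z := ⟨_, rfl⟩
  obtain ⟨j, hj⟩ : ∃ j, j = y ⊔ z := ⟨_, rfl⟩
  have haj : j ≤ a := hj ▸ sup_le hy hz
  have hmy : m ≤ y := hm ▸ inf_le_left
  have hmz : m ≤ z := hm ▸ inf_le_right
  have hyj : y ≤ j := hj ▸ le_sup_left
  have hzj : z ≤ j := hj ▸ le_sup_right
  have ham : m ≤ a := hmy.trans hy
  have hmj := hmy.trans hyj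
  have hm' : z ⊓ y = m := by rw [inf_comm]; exact hm.symm
  have hj' : z ⊔ y = j := by rw [sup_comm]; exact hj.symm
  have hD : D = {a, m, y, z, j} := by rw [hm, hj]
  rw [hD]
  have hm2 := hm.symm
  have hj2 := hj.symm
  clear_value D
  clear hD hm hj
  have t1 := sup_eq_right.2 ham
  have t2 := sup_eq_right.2 hy
  have t3 := sup_eq_right.2 hz
  have t4 := sup_eq_right.2 haj
  have t5 := sup_eq_right.2 hmy
  have t6 := sup_eq_right.2 hmz
  have t7 := sup_eq_right.2 hmj
  have t8 := sup_eq_right.2 hyj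
  have t9 := sup_eq_right.2 hzj
  have u1 := sup_eq_left.2 ham
  have u2 := sup_eq_left.2 hy
  have u3 := sup_eq_left.2 hz
  have u4 := sup_eq_left.2 haj
  have u5 := sup_eq_left.2 hmy
  have u6 := sup_eq_left.2 hmz
  have u7 := sup_eq_left.2 hmj
  have u8 := sup_eq_left.2 hyj
  have u9 := sup_eq_left.2 hzj
  have v1 := inf_eq_left.2 ham
  have v2 := inf_eq_left.2 hy
  have v3 := inf_eq_left.2 hz
  have v4 := inf_eq_left.2 haj
  have v5 := inf_eq_left.2 hmy
  have v6 := inf_eq_left.2 hmz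
  have v7 := inf_eq_left.2 hmj
  have v8 := inf_eq_left.2 hyj
  have v9 := inf_eq_left.2 hzj
  have w1 := inf_eq_right.2 ham
  have w2 := inf_eq_right.2 hy
  have w3 := inf_eq_right.2 hz
  have w4 := inf_eq_right.2 haj
  have w5 := inf_eq_right.2 hmy
  have w6 := inf_eq_right.2 hmz
  have w7 := inf_eq_right.2 hmj
  have w8 := inf_eq_right.2 hyj
  have w9 := inf_eq_right.2 hzj
  refine ⟨?_, ?_, ?_⟩
  · rintro p (rfl | rfl | rfl | rfl | rfl) q (rfl | rfl | rfl | rfl | rfl) <;>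
      simp only [hj2, hj', t1, t2, t3, t4, t5, t6, t7, t8, t9, u1, u2, u3, u4, u5, u6,
        u7, u8, u9, sup_idem] <;> simp
  · rintro p (rfl | rfl | rfl | rfl | rfl) q (rfl | rfl | rfl | rfl | rfl) <;>
      simp only [hm2, hm', v1, v2, v3, v4, v5, v6, v7, v8, v9, w1, w2, w3, w4, w5, w6,
        w7, w8, w9, inf_idem] <;> simp
  · rintro p (rfl | rfl | rfl | rfl | rfl) q (rfl | rfl | rfl | rfl | rfl) r
      (rfl | rfl | rfl | rfl | rfl) <;>
      simp only [hm2, hj2, hm', hj', t1, t2, t3, t4, t5, t6, t7, t8, t9, u1, u2, u3, u4, u5, u6,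
        u7, u8, u9, sup_idem, v1, v2, v3, v4, v5, v6, v7, v8, v9, w1, w2, w3, w4, w5, w6,
        w7, w8, w9, inf_idem]

/-- A distributive, codistributive and cancellable element is neutral. -/
theorem isNeutral_of {a : L} (h1 : ∀ y z, a ⊔ (y ⊓ z) = (a ⊔ y) ⊓ (a ⊔ z))
    (h2 : ∀ y z, a ⊓ (y ⊔ z) = (a ⊓ y) ⊔ (a ⊓ z))
    (h3 : ∀ y z, a ⊔ y = a ⊔ z → a ⊓ y = a ⊓ z → y = z) : IsNeutral a := by
  have f1 : ∀ y z, a ⊔ (y ⊔ z) = (a ⊔ y) ⊔ (a ⊔ z) := fun y z => by
    rw [sup_sup_sup_comm, sup_idem]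
  have f2 : ∀ y z, a ⊓ (y ⊓ z) = (a ⊓ y) ⊓ (a ⊓ z) := fun y z => by
    rw [inf_inf_inf_comm, inf_idem]
  intro y z p q r hp hq hr
  have D1 := five_bot (a := a) (y := a ⊔ y) (z := a ⊔ z) le_sup_left le_sup_left
  have D2 := five_top (a := a) (y := a ⊓ y) (z := a ⊓ z) inf_le_left inf_le_left
  have g1 : ∀ p, InGen a y z p →
      a ⊔ p ∈ ({a, (a ⊔ y) ⊓ (a ⊔ z), a ⊔ y, a ⊔ z, (a ⊔ y) ⊔ (a ⊔ z)} : Set L) := by
    intro p hp
    induction hp with
    | a => rw [sup_idem]; simp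
    | y => simp
    | z => simp
    | sup _ _ ih1 ih2 => rw [f1]; exact D1.1 _ ih1 _ ih2
    | inf _ _ ih1 ih2 => rw [h1]; exact D1.2.1 _ ih1 _ ih2
  have g2 : ∀ p, InGen a y z p →
      a ⊓ p ∈ ({a, (a ⊓ y) ⊓ (a ⊓ z), a ⊓ y, a ⊓ z, (a ⊓ y) ⊔ (a ⊓ z)} : Set L) := by
    intro p hp
    induction hp with
    | a => rw [inf_idem]; simp
    | y => simp
    | z => simp
    | sup _ _ ih1 ih2 => rw [h2]; exact D2.1 _ ih1 _ ih2
    | inf _ _ ih1 ih2 => rw [f2]; exact D2.2.1 _ ih1 _ ih2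
  apply h3
  · rw [h1, f1, f1, h1, h1]
    exact D1.2.2 _ (g1 p hp) _ (g1 q hq) _ (g1 r hr)
  · rw [f2, h2, h2, f2, f2]
    exact D2.2.2 _ (g2 p hp) _ (g2 q hq) _ (g2 r hr)

end lattice

/-! ### `ZM` is neutral -/

/-- The algebra is determined by the elements with `x'' = x`. -/
def Inflated (A : ZAlg) : Prop :=
  (∀ x y : A.carrier, A.imp x y = A.imp (A.pr (A.pr x)) (A.pr (A.pr y))) ∧
    ∀ x y : A.carrier, A.pr (A.pr (A.imp x y)) = A.imp x y

/-- the subalgebra of the elements with `x'' = x` -/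
def core (A : ZAlg) (h : IsIZ A) (hi : Inflated A) : ZAlg where
  carrier := {x : A.carrier // A.pr (A.pr x) = x}
  imp x y := ⟨A.imp x.1 y.1, hi.2 x.1 y.1⟩
  zero := ⟨A.zero, h.2⟩

theorem eval_core (A : ZAlg) (h : IsIZ A) (hi : Inflated A) (v : ℕ → (core A h hi).carrier)
    (t : Term) : (t.eval (core A h hi) v).1 = t.eval A (fun n => (v n).1) := by
  induction t with
  | var n => rfl
  | zero => rfl
  | imp s t hs ht =>
    simp only [Term.eval]
    rw [← hs, ← ht]
    rfl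

theorem core_isIZ (A : ZAlg) (h : IsIZ A) (hi : Inflated A) : IsIZ (core A h hi) := by
  constructor
  · intro x y z
    exact Subtype.ext (h.1 x.1 y.1 z.1)
  · exact Subtype.ext h.2

theorem inflated_of_mem {X : IZVar} (hX : ¬ ZM ≤ X) {A : ZAlg} (hA : A ∈ (ZM ⊔ X).1) :
    Inflated A := by
  rw [mem_sup] at hA
  have hz : ∀ B ∈ ZM.1, ∀ x y : B.carrier, B.imp x y = B.zero := fun B hB => (mem_ZM.1 hB).2
  constructor
  · intro x y
    refine hA.2 (.imp (.var 0) (.var 1))
      (.imp ((Term.var 0).pr.pr) ((Term.var 1).pr.pr)) ?_ ?_ (fun n => if n = 0 then x else y)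
    · intro B hB v
      simp only [Term.eval]
      rw [hz B hB, hz B hB]
    · intro B hB v
      simp only [Term.eval, Term.pr]
      have e := fun b => pr2_of_not_le hX hB b
      unfold ZAlg.pr at e
      rw [e, e]
  · intro x y
    refine hA.2 ((Term.imp (.var 0) (.var 1)).pr.pr) (.imp (.var 0) (.var 1)) ?_ ?_
      (fun n => if n = 0 then x else y)
    · intro B hB v
      simp only [Term.eval, Term.pr]
      rw [hz B hB (B.imp (B.imp (v 0) (v 1)) B.zero), hz B hB (v 0)]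
    · intro B hB v
      simp only [Term.eval, Term.pr]
      exact pr2_of_not_le hX hB _

theorem core_mem {X : IZVar} {A : ZAlg} (hA : A ∈ (ZM ⊔ X).1) (h : IsIZ A) (hi : Inflated A) :
    core A h hi ∈ X.1 := by
  rw [mem_sup] at hA
  rw [mem_iff]
  refine ⟨core_isIZ A h hi, fun s t hst v => ?_⟩
  apply Subtype.ext
  have key : Holds A s.pr.pr t.pr.pr := by
    refine hA.2 _ _ ?_ ?_
    · intro B hB v
      simp only [Term.eval, Term.pr]
      rw [(mem_ZM.1 hB).2, (mem_ZM.1 hB).2]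
    · intro B hB v
      simp only [Term.eval, Term.pr]
      rw [hst B hB v]
  have h1 := key (fun n => (v n).1)
  simp only [Term.eval, Term.pr] at h1
  rw [← eval_core A h hi, ← eval_core A h hi] at h1
  have h2 : A.imp (A.imp (s.eval (core A h hi) v).1 A.zero) A.zero =
      (s.eval (core A h hi) v).1 := (s.eval (core A h hi) v).2
  have h3 : A.imp (A.imp (t.eval (core A h hi) v).1 A.zero) A.zero =
      (t.eval (core A h hi) v).1 := (t.eval (core A h hi) v).2
  rw [h2, h3] at h1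
  exact h1

theorem eval_double (A : ZAlg) (h : IsIZ A) (hi : Inflated A) (v : ℕ → A.carrier) (t : Term) :
    t.eval A (fun n => A.pr (A.pr (v n))) = A.pr (A.pr (t.eval A v)) := by
  induction t with
  | var n => rfl
  | zero => exact h.2.symm
  | imp s t hs ht =>
    simp only [Term.eval]
    rw [hs, ht, ← hi.1, hi.2]

theorem mem_of_core {W : IZVar} {A : ZAlg} (h : IsIZ A) (hi : Inflated A)
    (hc : core A h hi ∈ W.1) : A ∈ (ZM ⊔ W).1 := by
  rw [mem_sup]
  refine ⟨h, fun s t hZ hW v => ?_⟩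
  -- the values of terms other than variables satisfy `x'' = x`
  have hfix : ∀ t : Term, (∀ i, t ≠ .var i) → A.pr (A.pr (t.eval A v)) = t.eval A v := by
    intro t ht
    cases t with
    | var i => exact absurd rfl (ht i)
    | zero => exact h.2
    | imp s t => exact hi.2 _ _
  have hcore : A.pr (A.pr (s.eval A v)) = A.pr (A.pr (t.eval A v)) := by
    rw [← eval_double A h hi, ← eval_double A h hi]
    have h1 := hW _ hc (fun n => ⟨A.pr (A.pr (v n)), pr4 h (v n)⟩)
    have h2 := congrArg (fun x : {x : A.carrier // A.pr (A.pr x) = x} => x.1) h1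
    exact (eval_core A h hi _ s).symm.trans (h2.trans (eval_core A h hi _ t))
  have hcase : (∃ i, s = .var i ∧ t = .var i) ∨ ((∀ i, s ≠ .var i) ∧ ∀ i, t ≠ .var i) := by
    by_cases h1 : ∃ i, s = .var i
    · obtain ⟨i, rfl⟩ := h1
      left
      refine ⟨i, rfl, ?_⟩
      have h2 : true = t.eval zm2 (fun n => decide (n = i)) := by
        have := hZ zm2 zm2_mem (fun n => decide (n = i))
        rw [← this]
        simp [Term.eval]
      cases t with
      | var j =>
        have h3 : true = decide (j = i) := h2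
        rw [of_decide_eq_true h3.symm]
      | zero => exact absurd h2 (by simp [Term.eval, zm2])
      | imp s t => exact absurd h2 (by simp [Term.eval, zm2])
    · by_cases h1' : ∃ i, t = .var i
      · obtain ⟨i, rfl⟩ := h1'
        exfalso
        have h2 : s.eval zm2 (fun n => decide (n = i)) = true := by
          have := hZ zm2 zm2_mem (fun n => decide (n = i))
          rw [this]
          show decide (i = i) = true
          exact decide_eq_true rfl
        cases s with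
        | var j => exact h1 ⟨j, rfl⟩
        | zero => exact absurd h2 (by simp [Term.eval, zm2])
        | imp s t => exact absurd h2 (by simp [Term.eval, zm2])
      · right
        push Not at h1 h1'
        exact ⟨h1, h1'⟩
  rcases hcase with ⟨i, rfl, rfl⟩ | ⟨h1, h2⟩
  · rfl
  · rw [← hfix s h1, ← hfix t h2, hcore]

theorem ZM_dist (Y Z : IZVar) : ZM ⊔ (Y ⊓ Z) = (ZM ⊔ Y) ⊓ (ZM ⊔ Z) := by
  apply le_antisymm
  · exact le_inf (sup_le_sup_left inf_le_left _) (sup_le_sup_left inf_le_right _)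
  · intro A hA
    obtain ⟨h1, h2⟩ := mem_inf.1 hA
    have h := isIZ _ h1
    by_cases hY : ZM ≤ Y
    · by_cases hZ : ZM ≤ Z
      · rw [sup_eq_right.2 hY] at h1
        rw [sup_eq_right.2 hZ] at h2
        exact (le_sup_right : Y ⊓ Z ≤ ZM ⊔ (Y ⊓ Z)) (mem_inf.2 ⟨h1, h2⟩)
      · have hi := inflated_of_mem hZ h2
        exact mem_of_core h hi (mem_inf.2 ⟨core_mem h1 h hi, core_mem h2 h hi⟩)
    · have hi := inflated_of_mem hY h1
      exact mem_of_core h hi (mem_inf.2 ⟨core_mem h1 h hi, core_mem h2 h hi⟩)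

/-- trivial algebras belong to all varieties -/
theorem mem_of_trivial {A : ZAlg} (h : ∀ a b : A.carrier, a = b) (W : IZVar) : A ∈ W.1 := by
  rw [mem_iff]
  exact ⟨⟨fun _ _ _ => h _ _, h _ _⟩, fun _ _ _ _ => h _ _⟩

theorem inf_trivial {X W : IZVar} (hX : ¬ ZM ≤ X) : ZM ⊓ X ≤ W := by
  intro A hA
  obtain ⟨h1, h2⟩ := mem_inf.1 hA
  have h3 := (mem_ZM.1 h1).2
  have h4 : ∀ a : A.carrier, a = A.zero := fun a => by
    have := pr2_of_not_le hX h2 a
    unfold ZAlg.pr at this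
    rw [h3] at this
    exact this.symm
  exact mem_of_trivial (fun a b => by rw [h4 a, h4 b]) W

theorem ZM_codist (Y Z : IZVar) : ZM ⊓ (Y ⊔ Z) = (ZM ⊓ Y) ⊔ (ZM ⊓ Z) := by
  apply le_antisymm
  · by_cases hY : ZM ≤ Y
    · rw [inf_eq_left.2 hY]
      exact inf_le_left.trans le_sup_left
    · by_cases hZ : ZM ≤ Z
      · rw [inf_eq_left.2 hZ]
        exact inf_le_left.trans le_sup_right
      · exact inf_trivial (not_le_sup hY hZ)
  · exact sup_le (inf_le_inf_left _ le_sup_left) (inf_le_inf_left _ le_sup_right)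

theorem ZM_canc (Y Z : IZVar) (h1 : ZM ⊔ Y = ZM ⊔ Z) (h2 : ZM ⊓ Y = ZM ⊓ Z) : Y = Z := by
  have key : ∀ Y Z : IZVar, ZM ⊔ Y = ZM ⊔ Z → ¬ ZM ≤ Y → ¬ ZM ≤ Z → Y ≤ Z := by
    intro Y Z h hY hZ A hA
    have hA1 : A ∈ (ZM ⊔ Z).1 := by
      rw [← h]
      exact (le_sup_right : Y ≤ ZM ⊔ Y) hA
    have hiz := isIZ _ hA
    have hi := inflated_of_mem hZ hA1
    have hc := core_mem hA1 hiz hi
    rw [mem_iff]
    refine ⟨hiz, fun s t hst v => ?_⟩
    have h1 := hst _ hc (fun n => ⟨v n, pr2_of_not_le hY hA _⟩)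
    have h2 := congrArg (fun x : {x : A.carrier // A.pr (A.pr x) = x} => x.1) h1
    exact (eval_core A hiz hi _ s).symm.trans (h2.trans (eval_core A hiz hi _ t))
  by_cases hY : ZM ≤ Y
  · have hZ : ZM ≤ Z := by
      rw [← inf_eq_left, ← h2]
      exact inf_eq_left.2 hY
    rw [← sup_eq_right.2 hY, h1, sup_eq_right.2 hZ]
  · have hZ : ¬ ZM ≤ Z := by
      intro hZ
      apply hY
      rw [← inf_eq_left, h2]
      exact inf_eq_left.2 hZ
    exact le_antisymm (key Y Z h1 hY hZ) (key Z Y h1.symm hZ hY)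

theorem ZM_neutral : IsNeutral ZM := isNeutral_of ZM_dist ZM_codist ZM_canc

/-! ### The variety `BA` -/

/-- `¬ t = t → 0` -/
def nt (t : Term) : Term := .imp t .zero

/-- `s ∨ t = ¬ s → t` -/
def sp (s t : Term) : Term := .imp (nt s) t

/-- `s ∧ t = ¬ (¬ s ∨ ¬ t)` -/
def nf (s t : Term) : Term := nt (sp (nt s) (nt t))

/-- the variable `x` -/
abbrev x : Term := .var 0
/-- the variable `y` -/
abbrev y : Term := .var 1
/-- the variable `z` -/
abbrev z : Term := .var 2

/-- Axioms of Boolean algebras in terms of `→` and `0`. -/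
def boolAxioms : List (Term × Term) :=
  [ (sp x y, sp y x),
    (sp (sp x y) z, sp x (sp y z)),
    (nf x y, nf y x),
    (nf (nf x y) z, nf x (nf y z)),
    (sp x (nf x y), x),
    (nf x (sp x y), x),
    (nf (sp x y) (sp x z), sp x (nf y z)),
    (nf x (nt x), .zero),
    (sp x (nt x), nt .zero),
    (sp .zero x, x),
    (sp x (nt .zero), nt .zero),
    (.imp x y, sp (nt x) y) ]

theorem bool_isIZ {A : ZAlg} (hA : A ∈ boolClass) : IsIZ A := by
  obtain ⟨b, h1, h2⟩ := hA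
  constructor
  · intro x y z
    unfold ZAlg.pr
    simp only [h1, h2, sup_bot_eq, compl_sup, compl_compl]
    rw [sup_comm (x ⊓ yᶜ) z, sup_inf_left, sup_comm z yᶜ]
    simp only [compl_inf, compl_compl]
  · unfold ZAlg.pr
    simp only [h1, h2, sup_bot_eq, compl_compl]

theorem boolClass_isVariety : IsVariety boolClass := by
  refine ⟨{e | e ∈ boolAxioms}, ?_⟩
  ext A
  constructor
  · intro hA
    refine ⟨bool_isIZ hA, ?_⟩
    obtain ⟨b, h1, h2⟩ := hA
    intro e he v
    simp only [boolAxioms, Set.mem_ofPred_eq, List.mem_cons, List.not_mem_nil, or_false] at he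
    rcases he with rfl | rfl | rfl | rfl | rfl | rfl | rfl | rfl | rfl | rfl | rfl | rfl <;>
      simp only [sp, nf, nt, Term.eval, h1, h2, sup_bot_eq, compl_compl, compl_sup, compl_inf]
    · exact sup_comm _ _
    · exact sup_assoc _ _ _
    · exact inf_comm _ _
    · exact inf_assoc _ _ _
    · exact sup_inf_self
    · exact inf_sup_self
    · exact sup_inf_left _ _ _ |>.symm
    · exact inf_compl_self _
    · simp
    · simp
    · simp
  · rintro ⟨_, h⟩
    have H : ∀ e ∈ boolAxioms, ∀ a b c : A.carrier,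
        e.1.eval A (fun n => if n = 0 then a else if n = 1 then b else c) =
          e.2.eval A (fun n => if n = 0 then a else if n = 1 then b else c) :=
      fun e he a b c => h e he _
    simp only [boolAxioms, List.forall_mem_cons, List.not_mem_nil, false_imp_iff, implies_true,
      and_true, sp, nf, nt, Term.eval, if_true, one_ne_zero, if_false, OfNat.ofNat_ne_zero,
      OfNat.ofNat_ne_one] at H
    obtain ⟨c1, c2, c3, c4, c5, c6, c7, c8, c9, c10, c11, c12⟩ := H
    let ng : A.carrier → A.carrier := fun a => A.imp a A.zero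
    let su : A.carrier → A.carrier → A.carrier := fun a b => A.imp (ng a) b
    let mi : A.carrier → A.carrier → A.carrier := fun a b => ng (su (ng a) (ng b))
    let lat : Lattice A.carrier :=
      @Lattice.mk' A.carrier ⟨su⟩ ⟨mi⟩ (fun a b => c1 a b a) (fun a b c => c2 a b c)
        (fun a b => c3 a b a) (fun a b c => c4 a b c) (fun a b => c5 a b a)
        (fun a b => c6 a b a)
    have le_iff' : ∀ a b : A.carrier, a ≤ b ↔ su a b = b := fun a b => Iff.rfl
    let ba : BooleanAlgebra A.carrier :=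
      { lat with
        le_sup_inf := fun a b c => le_of_eq (c7 a b c)
        compl := ng
        top := ng A.zero
        bot := A.zero
        inf_compl_le_bot := fun a => le_of_eq (c8 a a a)
        top_le_sup_compl := fun a => le_of_eq (c9 a a a).symm
        le_top := fun a => (le_iff' _ _).2 (c11 a a a)
        bot_le := fun a => (le_iff' _ _).2 (c10 a a a) }
    exact ⟨ba, fun a b => c12 a b a, rfl⟩

/-- The variety `BA` of all Boolean algebras, viewed as implication zroupoids. -/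
def BA : IZVar := ⟨boolClass, boolClass_isVariety⟩

/-! ### `SL` and `BA` are not neutral -/

/-- A quotient of a subalgebra of a product of a member of `K` and a member of `L` belongs
to `K ∨ L`. -/
theorem mem_sup_of {K L : IZVar} {A S P : ZAlg} (hA : IsIZ A) (hS : S ∈ K.1) (hP : P ∈ L.1)
    (R : S.carrier → P.carrier → Prop) (R0 : R S.zero P.zero)
    (Rimp : ∀ a b c d, R a b → R c d → R (S.imp a c) (P.imp b d))
    (f : S.carrier → P.carrier → A.carrier) (f0 : f S.zero P.zero = A.zero)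
    (fimp : ∀ a b c d, R a b → R c d → f (S.imp a c) (P.imp b d) = A.imp (f a b) (f c d))
    (fsurj : ∀ u : A.carrier, ∃ a b, R a b ∧ f a b = u) : A ∈ (K ⊔ L).1 := by
  rw [mem_sup]
  refine ⟨hA, fun s t hK hL v => ?_⟩
  choose a b hR hf using fun n => fsurj (v n)
  have key : ∀ t : Term, R (t.eval S a) (t.eval P b) ∧
      f (t.eval S a) (t.eval P b) = t.eval A v := by
    intro t
    induction t with
    | var n => exact ⟨hR n, hf n⟩
    | zero => exact ⟨R0, f0⟩
    | imp s t hs ht =>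
      refine ⟨Rimp _ _ _ _ hs.1 ht.1, ?_⟩
      simp only [Term.eval]
      rw [fimp _ _ _ _ hs.1 ht.1, hs.2, ht.2]
  rw [← (key s).2, ← (key t).2, hK S hS a, hL P hP b]

/-- `X`: `(x → y) → z ≈ 0`, `0 → 0 ≈ 0`, `x → x ≈ x → 0`. -/
def X : IZVar := varietyOf
  {(.imp (.imp x y) z, .zero), (.imp .zero .zero, .zero), (.imp x x, .imp x .zero)}

/-- `Y`: `(x → y) → z ≈ 0`, `0 → 0 ≈ 0`, `x → x ≈ x → (x → x)`. -/
def Y : IZVar := varietyOf
  {(.imp (.imp x y) z, .zero), (.imp .zero .zero, .zero), (.imp x x, .imp x (.imp x x))}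

theorem mem_X {A : ZAlg} : A ∈ X.1 ↔ IsIZ A ∧ (∀ a b c : A.carrier,
    A.imp (A.imp a b) c = A.zero) ∧ A.imp A.zero A.zero = A.zero ∧
    ∀ a : A.carrier, A.imp a a = A.imp a A.zero := by
  constructor
  · rintro ⟨h1, h2⟩
    refine ⟨h1, fun a b c => ?_, ?_, fun a => ?_⟩
    · exact h2 _ (Or.inl rfl) (fun n => if n = 0 then a else if n = 1 then b else c)
    · exact h2 _ (Or.inr (Or.inl rfl)) (fun _ => A.zero)
    · exact h2 _ (Or.inr (Or.inr rfl)) (fun _ => a)
  · rintro ⟨h1, h2, h3, h4⟩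
    refine ⟨h1, ?_⟩
    rintro e (rfl | rfl | rfl) v
    · exact h2 _ _ _
    · exact h3
    · exact h4 _

theorem mem_Y {A : ZAlg} : A ∈ Y.1 ↔ IsIZ A ∧ (∀ a b c : A.carrier,
    A.imp (A.imp a b) c = A.zero) ∧ A.imp A.zero A.zero = A.zero ∧
    ∀ a : A.carrier, A.imp a a = A.imp a (A.imp a a) := by
  constructor
  · rintro ⟨h1, h2⟩
    refine ⟨h1, fun a b c => ?_, ?_, fun a => ?_⟩
    · exact h2 _ (Or.inl rfl) (fun n => if n = 0 then a else if n = 1 then b else c)
    · exact h2 _ (Or.inr (Or.inl rfl)) (fun _ => A.zero)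
    · exact h2 _ (Or.inr (Or.inr rfl)) (fun _ => a)
  · rintro ⟨h1, h2, h3, h4⟩
    refine ⟨h1, ?_⟩
    rintro e (rfl | rfl | rfl) v
    · exact h2 _ _ _
    · exact h3
    · exact h4 _

theorem mem_SL {A : ZAlg} : A ∈ SL.1 ↔ IsIZ A ∧ (∀ a b c : A.carrier,
    A.imp (A.imp a b) c = A.imp a (A.imp b c)) ∧ (∀ a : A.carrier, A.imp a a = a) ∧
    ∀ a b : A.carrier, A.imp a b = A.imp b a := by
  constructor
  · rintro ⟨h1, h2⟩
    refine ⟨h1, fun a b c => ?_, fun a => ?_, fun a b => ?_⟩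
    · exact h2 _ (Or.inl rfl) (fun n => if n = 0 then a else if n = 1 then b else c)
    · exact h2 _ (Or.inr (Or.inl rfl)) (fun _ => a)
    · exact h2 _ (Or.inr (Or.inr rfl)) (fun n => if n = 0 then a else b)
  · rintro ⟨h1, h2, h3, h4⟩
    refine ⟨h1, ?_⟩
    rintro e (rfl | rfl | rfl) v
    · exact h2 _ _ _
    · exact h3 _
    · exact h4 _ _

/-- an algebra given by a table -/
def tab (n : ℕ) (t : Fin (n + 1) → Fin (n + 1) → Fin (n + 1)) : ZAlg := ⟨Fin (n + 1), t, 0⟩

/-- the semilattice with two elements -/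
def sl2 : ZAlg := ⟨Bool, fun a b => a || b, false⟩

/-- the Boolean algebra with two elements -/
def ba2 : ZAlg := ⟨Bool, fun a b => !a || b, false⟩

/-- table of `P₁` -/
def tP1 : Fin 3 → Fin 3 → Fin 3 := ![![0, 0, 0], ![2, 2, 0], ![0, 0, 0]]

/-- table of `P₂` -/
def tP2 : Fin 4 → Fin 4 → Fin 4 :=
  ![![0, 0, 0, 0], ![2, 3, 0, 3], ![0, 0, 0, 0], ![0, 0, 0, 0]]

/-- table of the algebra for `SL` -/
def tS : Fin 4 → Fin 4 → Fin 4 :=
  ![![0, 0, 2, 2], ![0, 0, 3, 2], ![2, 2, 2, 2], ![2, 2, 2, 2]]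

/-- table of the algebra for `BA` -/
def tB : Fin 4 → Fin 4 → Fin 4 :=
  ![![2, 2, 2, 2], ![2, 2, 2, 2], ![0, 0, 2, 2], ![1, 0, 2, 2]]

/-- the algebra `P₁` in `X` -/
def P1 : ZAlg := tab 2 tP1

/-- the algebra `P₂` in `Y` -/
def P2 : ZAlg := tab 3 tP2

/-- the algebra for `SL` -/
def AS : ZAlg := tab 3 tS

/-- the algebra for `BA` -/
def AB : ZAlg := tab 3 tB

theorem isIZ_tab {n : ℕ} {t : Fin (n + 1) → Fin (n + 1) → Fin (n + 1)}
    (h : ∀ x y z, t (t x y) z = t (t (t (t z 0) x) (t (t y z) 0)) 0) (h0 : t (t 0 0) 0 = 0) :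
    IsIZ (tab n t) := ⟨h, h0⟩

theorem P1_mem : P1 ∈ X.1 := by
  rw [mem_X]
  refine ⟨isIZ_tab (by decide +kernel) (by decide +kernel), ?_, ?_, ?_⟩
  · show ∀ a b c : Fin 3, tP1 (tP1 a b) c = 0
    decide +kernel
  · show tP1 0 0 = 0
    decide +kernel
  · show ∀ a : Fin 3, tP1 a a = tP1 a 0
    decide +kernel

theorem P2_mem : P2 ∈ Y.1 := by
  rw [mem_Y]
  refine ⟨isIZ_tab (by decide +kernel) (by decide +kernel), ?_, ?_, ?_⟩
  · show ∀ a b c : Fin 4, tP2 (tP2 a b) c = 0
    decide +kernel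
  · show tP2 0 0 = 0
    decide +kernel
  · show ∀ a : Fin 4, tP2 a a = tP2 a (tP2 a a)
    decide +kernel

theorem sl2_mem : sl2 ∈ SL.1 := by
  rw [mem_SL]
  refine ⟨⟨?_, rfl⟩, ?_, ?_, ?_⟩
  · show ∀ x y z : Bool, ((x || y) || z) =
      ((((z || false) || x) || ((y || z) || false)) || false)
    decide +kernel
  · show ∀ x y z : Bool, ((x || y) || z) = (x || (y || z))
    decide +kernel
  · show ∀ x : Bool, (x || x) = x
    decide +kernel
  · show ∀ x y : Bool, (x || y) = (y || x)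
    decide +kernel

theorem ba2_mem : ba2 ∈ BA.1 := by
  refine ⟨(inferInstance : BooleanAlgebra Bool), ?_, rfl⟩
  show ∀ x y : Bool, (!x || y) = xᶜ ⊔ y
  decide +kernel

/-- the map onto the algebra for `SL` -/
def fS (a : Bool) (b : Fin 4) : Fin 4 :=
  if a then (if b = 2 then 3 else 2) else (if b = 1 then 1 else 0)

/-- the map onto the algebra for `BA` -/
def fB (a : Bool) (b : Fin 4) : Fin 4 :=
  if a then (if b = 1 then 3 else 2) else (if b = 2 then 1 else 0)

theorem AS_mem_X : AS ∈ (SL ⊔ X).1 := by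
  refine mem_sup_of (isIZ_tab (by decide +kernel) (by decide +kernel)) sl2_mem P1_mem
    (fun (a : Bool) (b : Fin 3) => (a = true → b ≠ 1)) ?_ ?_
    (fun (a : Bool) (b : Fin 3) => fS a b.castSucc) ?_ ?_ ?_
  · show false = true → (0 : Fin 3) ≠ 1
    decide
  · show ∀ (a : Bool) (b : Fin 3) (c : Bool) (d : Fin 3), (a = true → b ≠ 1) →
      (c = true → d ≠ 1) → ((a || c) = true → tP1 b d ≠ 1)
    decide +kernel
  · show fS false (0 : Fin 3).castSucc = 0
    decide +kernel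
  · show ∀ (a : Bool) (b : Fin 3) (c : Bool) (d : Fin 3), (a = true → b ≠ 1) →
      (c = true → d ≠ 1) →
      fS (a || c) (tP1 b d).castSucc = tS (fS a b.castSucc) (fS c d.castSucc)
    decide +kernel
  · show ∀ u : Fin 4, ∃ (a : Bool) (b : Fin 3), (a = true → b ≠ 1) ∧ fS a b.castSucc = u
    decide +kernel

theorem AS_mem_Y : AS ∈ (SL ⊔ Y).1 := by
  refine mem_sup_of (isIZ_tab (by decide +kernel) (by decide +kernel)) sl2_mem P2_mem
    (fun (a : Bool) (b : Fin 4) => (a = true → b = 0 ∨ b = 2)) ?_ ?_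
    (fun (a : Bool) (b : Fin 4) => fS a b) ?_ ?_ ?_
  · show false = true → (0 : Fin 4) = 0 ∨ (0 : Fin 4) = 2
    decide
  · show ∀ (a : Bool) (b : Fin 4) (c : Bool) (d : Fin 4), (a = true → b = 0 ∨ b = 2) →
      (c = true → d = 0 ∨ d = 2) → ((a || c) = true → tP2 b d = 0 ∨ tP2 b d = 2)
    decide +kernel
  · show fS false (0 : Fin 4) = 0
    decide +kernel
  · show ∀ (a : Bool) (b : Fin 4) (c : Bool) (d : Fin 4), (a = true → b = 0 ∨ b = 2) →
      (c = true → d = 0 ∨ d = 2) → fS (a || c) (tP2 b d) = tS (fS a b) (fS c d)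
    decide +kernel
  · show ∀ u : Fin 4, ∃ (a : Bool) (b : Fin 4), (a = true → b = 0 ∨ b = 2) ∧ fS a b = u
    decide +kernel

theorem AB_mem_X : AB ∈ (BA ⊔ X).1 := by
  refine mem_sup_of (isIZ_tab (by decide +kernel) (by decide +kernel)) ba2_mem P1_mem
    (fun (a : Bool) (b : Fin 3) => (a = false → b ≠ 1)) ?_ ?_
    (fun (a : Bool) (b : Fin 3) => fB a b.castSucc) ?_ ?_ ?_
  · show false = false → (0 : Fin 3) ≠ 1
    decide
  · show ∀ (a : Bool) (b : Fin 3) (c : Bool) (d : Fin 3), (a = false → b ≠ 1) →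
      (c = false → d ≠ 1) → ((!a || c) = false → tP1 b d ≠ 1)
    decide +kernel
  · show fB false (0 : Fin 3).castSucc = 0
    decide +kernel
  · show ∀ (a : Bool) (b : Fin 3) (c : Bool) (d : Fin 3), (a = false → b ≠ 1) →
      (c = false → d ≠ 1) →
      fB (!a || c) (tP1 b d).castSucc = tB (fB a b.castSucc) (fB c d.castSucc)
    decide +kernel
  · show ∀ u : Fin 4, ∃ (a : Bool) (b : Fin 3), (a = false → b ≠ 1) ∧ fB a b.castSucc = u
    decide +kernel

theorem AB_mem_Y : AB ∈ (BA ⊔ Y).1 := by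
  refine mem_sup_of (isIZ_tab (by decide +kernel) (by decide +kernel)) ba2_mem P2_mem
    (fun (a : Bool) (b : Fin 4) => (a = false → b = 0 ∨ b = 2)) ?_ ?_
    (fun (a : Bool) (b : Fin 4) => fB a b) ?_ ?_ ?_
  · show false = false → (0 : Fin 4) = 0 ∨ (0 : Fin 4) = 2
    decide
  · show ∀ (a : Bool) (b : Fin 4) (c : Bool) (d : Fin 4), (a = false → b = 0 ∨ b = 2) →
      (c = false → d = 0 ∨ d = 2) → ((!a || c) = false → tP2 b d = 0 ∨ tP2 b d = 2)
    decide +kernel
  · show fB false (0 : Fin 4) = 0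
    decide +kernel
  · show ∀ (a : Bool) (b : Fin 4) (c : Bool) (d : Fin 4), (a = false → b = 0 ∨ b = 2) →
      (c = false → d = 0 ∨ d = 2) → fB (!a || c) (tP2 b d) = tB (fB a b) (fB c d)
    decide +kernel
  · show ∀ u : Fin 4, ∃ (a : Bool) (b : Fin 4), (a = false → b = 0 ∨ b = 2) ∧ fB a b = u
    decide +kernel

/-- In `X ∧ Y` the identity `x → 0 ≈ x → (x → 0)` holds. -/
theorem inter_identity {A : ZAlg} (hX : A ∈ X.1) (hY : A ∈ Y.1) (a : A.carrier) :
    A.imp a A.zero = A.imp a (A.imp a A.zero) := by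
  obtain ⟨_, _, _, h1⟩ := mem_X.1 hX
  obtain ⟨_, _, _, h2⟩ := mem_Y.1 hY
  rw [← h1 a, ← h2 a]

theorem SL_not_neutral : ¬ IsNeutral SL := by
  intro h
  have h1 : AS ∈ (SL ⊔ (X ⊓ Y)).1 := by
    rw [h.dist]
    exact mem_inf.2 ⟨AS_mem_X, AS_mem_Y⟩
  have h2 := (mem_sup.1 h1).2 (.imp x (.imp .zero z)) (.imp x (.imp x (.imp .zero z)))
    (fun B hB v => by
      obtain ⟨_, k1, k2, _⟩ := mem_SL.1 hB
      simp only [Term.eval]
      rw [← k1 (v 0) (v 0), k2])
    (fun B hB v => by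
      obtain ⟨hX, hY⟩ := mem_inf.1 hB
      have k1 := (mem_X.1 hX).2.1
      have k2 := (mem_X.1 hX).2.2.1
      have k3 : B.imp B.zero (v 2) = B.zero := by
        have := k1 B.zero B.zero (v 2)
        rwa [k2] at this
      simp only [Term.eval]
      rw [k3]
      exact inter_identity hX hY _)
    (fun n => if n = 0 then (1 : Fin 4) else (2 : Fin 4))
  have h3 : tS 1 (tS 0 2) = tS 1 (tS 1 (tS 0 2)) := h2
  exact absurd h3 (by decide +kernel)

theorem BA_not_neutral : ¬ IsNeutral BA := by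
  intro h
  have h1 : AB ∈ (BA ⊔ (X ⊓ Y)).1 := by
    rw [h.dist]
    exact mem_inf.2 ⟨AB_mem_X, AB_mem_Y⟩
  have h2 := (mem_sup.1 h1).2 (.imp x .zero) (.imp x (.imp x .zero))
    (fun B hB v => by
      obtain ⟨b, k1, k2⟩ := hB
      simp only [Term.eval, k1, k2, sup_bot_eq, sup_idem])
    (fun B hB v => by
      obtain ⟨hX, hY⟩ := mem_inf.1 hB
      exact inter_identity hX hY _)
    (fun _ => (3 : Fin 4))
  have h3 : tB 3 0 = tB 3 (tB 3 0) := h2
  exact absurd h3 (by decide +kernel)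

/-- **Theorem.**  In the lattice of all varieties of implication zroupoids, `ZM` is a neutral
element, while `SL` and `BA` are not neutral. -/
theorem result : IsNeutral ZM ∧ ¬ IsNeutral SL ∧ ¬ IsNeutral BA :=
  ⟨ZM_neutral, SL_not_neutral, BA_not_neutral⟩

end Pool.Agent.Results.MP_be65b5_al.Neutrality
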